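import Pool.Agent.Lib.H1M.RV3.M104
import Pool.Agent.Lib.H1M.RV3.M107
import Pool.Agent.Lib.H1M.RV3.M109

/-!
# The law of the distances in the Goldbach graphs

For both families of graphs of problem `MP_443e5f_co`: the distance of two vertices `a`, `b` is determined by the residues
of `a` and `b` modulo `60`, up to the exceptions described by the structure `Law` of `Lib/H59L/Defs.lean`.
-/

namespace Pool.Agent.Results.MP_443e5f_co.DistanceLaw

open Pool.Agent.Goldbach
open Pool.Agent.Lib.H59L

/-- There are `δ, C, c > 0` such that for all large `n` the law of the distances `Law _ δ C c n` holds for the finite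
Goldbach graph `G_n` and for the near Goldbach graph `G(n)`. -/
theorem result : ∃ δ C c : ℝ, 0 < δ ∧ 0 < C ∧ 0 < c ∧ ∃ n0 : ℕ, ∀ n : ℕ, n0 ≤ n →
    Law (goldbachGraph n) δ C c n ∧ Law (nearGoldbachGraph n) δ C c n := by
  obtain ⟨c0, hc0, n1, h1⟩ := Pool.Agent.H37T.gin
  obtain ⟨c1, hc1, n2, h2⟩ := Pool.Agent.Lib.H18F.FF Pool.Agent.H37T.invS
  refine law_main c0 c1 hc0 hc1 (max n1 n2) (fun n hn => h1 n ((le_max_left _ _).trans hn)) fun n hn => ?_
  have h3 := h2 n ((le_max_right _ _).trans hn)
  unfold ffFar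
  refine le_trans (le_of_eq ?_) h3
  congr 2

end Pool.Agent.Results.MP_443e5f_co.DistanceLaw
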