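import Pool.Agent.Lib.H1M.RV3.D_H59V_G9
import Pool.Agent.Lib.H1M.RV3.M108

/-!
# Few Chen edges give diameter five

There are `δ, c > 0` such that for all large `n`, in the finite Goldbach graph `G = G_n` and in the finite near
Goldbach graph `G = G(n)`: every vertex has at least `c n / (log n)^2` Chen neighbours (one of `(a + b) / 2`,
`|a - b| / 2` is an odd prime, the other one is an odd prime or a product of two odd primes), and some set of at
most `n ^ (1 - δ)` Chen edges, added to `G`, makes all distances at most `5`, and at most `4` between vertices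
that are congruent modulo `4`.
-/

namespace Pool.Agent.Results.MP_443e5f_co.FewChenEdges

open Pool.Agent.Goldbach Pool.Agent.Lib.H59V

/-- **Few Chen edges give diameter five.** See `Pool.Agent.Lib.H59V.FewChen` for the two properties. -/
theorem result : ∃ δ c : ℝ, 0 < δ ∧ 0 < c ∧ ∃ n0 : ℕ, ∀ n : ℕ, n0 ≤ n →
    FewChen (goldbachGraph n) δ c n ∧ FewChen (nearGoldbachGraph n) δ c n := by
  obtain ⟨c0, hc0, n1, h⟩ := gc_all
  exact few_main c0 hc0 n1 h

end Pool.Agent.Results.MP_443e5f_co.FewChenEdges
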