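import Pool.Agent.Lib.H1M.RV3.M018
import Pool.Agent.Lib.H1M.RV3.M091
import Pool.Agent.Lib.H1M.RV3.M109

/-!
# All but `n ^ (1 - δ)` vertices of the Goldbach graphs are pairwise at distance at most five

For both families of graphs of problem `MP_443e5f_co`: with a power saving, all but `n ^ (1 - δ)` vertices are
pairwise at distance at most `5`, any two vertices of degree at least `n ^ (1 - 2 δ)` are at distance at most `7`, and `5`
cannot be replaced by `4`: every set of at least `(3/5 + ε) n` vertices contains two vertices at distance at least `5`.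
-/

namespace Pool.Agent.Results.MP_443e5f_co.PowerSavingFive

open Pool.Agent.Goldbach Pool.Agent.Lib.H96G

/-- There is `δ0 > 0` such that for every `ε > 0` and all large `n` there is `δ ∈ [δ0, 1/2]` with `Fin5 n δ` for the finite
Goldbach graph `G_n` and for the near Goldbach graph `G(n)`, and in both graphs every set of at least `(3/5 + ε) n` vertices
contains two vertices at distance at least `5`. -/
theorem result : ∃ δ0 : ℝ, 0 < δ0 ∧ ∀ ε : ℝ, 0 < ε → ∃ N : ℕ, ∀ n ≥ N,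
    (∃ δ : ℝ, δ0 ≤ δ ∧ δ ≤ 1 / 2 ∧ Fin5 n δ (goldbachGraph n) ∧ Fin5 n δ (nearGoldbachGraph n)) ∧
    (∀ Γ : Set (goldbachVertices n), (3 / 5 + ε) * n ≤ (Γ.ncard : ℝ) →
      ∃ a ∈ Γ, ∃ b ∈ Γ, 5 ≤ (goldbachGraph n).edist a b) ∧
    (∀ Γ : Set (evenVertices n), (3 / 5 + ε) * n ≤ (Γ.ncard : ℝ) →
      ∃ a ∈ Γ, ∃ b ∈ Γ, 5 ≤ (nearGoldbachGraph n).edist a b) := by
  obtain ⟨c0, hc0, n1, h1⟩ := Pool.Agent.H37T.gin
  obtain ⟨δ0, hδ0, n2, h2⟩ := final c0 hc0 n1 h1
  refine ⟨δ0, hδ0, fun ε hε => ?_⟩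
  obtain ⟨n3, h3⟩ := Pool.Agent.Lib.H18GB.sharp ε hε
  refine ⟨max n2 n3, fun n hn => ⟨h2 n (le_trans (le_max_left _ _) hn), ?_, ?_⟩⟩
  · exact h3 n (le_trans (le_max_right _ _) hn) (goldbachVertices n) {p | p.Prime ∧ Odd p ∧ p < 2 * n}
      (fun a ha => ha) (fun m hm => Or.inr ⟨hm.1, hm.2.1⟩)
  · exact h3 n (le_trans (le_max_right _ _) hn) (evenVertices n) ({1} ∪ {p | p.Prime ∧ Odd p ∧ p < 2 * n})
      (fun a ha => ⟨ha.1, ha.2.2⟩) (fun m hm => by
        rcases hm with hm | hm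
        · exact Or.inl hm
        · exact Or.inr ⟨hm.1, hm.2.1⟩)

end Pool.Agent.Results.MP_443e5f_co.PowerSavingFive
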