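import Pool.Agent.Lib.H1M.RV3.M091
import Pool.Agent.Lib.H1M.RV3.M109
import Pool.Agent.Lib.H1M.RV3.M110

/-!
# Goldbach graphs: bounded distances between all vertices outside of one fixed thin set

There is `δ0 > 0` such that for all `0 < a < b < δ0` there is a fixed set `E` of natural numbers, with at most `x ^ (1 - a)`
elements up to `x`, such that in every Goldbach graph `G_n` and in every near Goldbach graph `G(n)` any two vertices
`u`, `v` outside of `E` are at distance at most `10`, and at distance at most `5` if `u ≤ v ^ (1 + δ0)` and `v ≤ u ^ (1 + δ0)`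
(`Pool.Agent.Lib.H18F.OffTen`). Every even number outside of `E` has at least `u ^ (1 - b)` representations as a sum of two
primes. Any two rich vertices are at distance at most `12`; a vertex `u` is rich if it has at least `m ^ (1 - b)` neighbours
in the graph with some index `m ≤ n`, or at least `u ^ (1 - b)` representations as a sum of two primes
(`Pool.Agent.Lib.H18R.Rich`). Consequently Q1 holds if every even `u ≥ 8` is the sum of two different primes and every
large even number has at least `u ^ (1 - b)` representations as a sum of two primes.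
-/

namespace Pool.Agent.Results.MP_443e5f_co.TenOffThinSet

open Pool.Agent.Goldbach Pool.Agent.Lib.H18R Pool.Agent.Lib.H18F

theorem result : ∃ δ0 : ℝ, 0 < δ0 ∧ ∀ a b : ℝ, 0 < a → a < b → b < δ0 →
    ∃ (E : Set ℕ) (n0 x0 : ℕ),
      (∀ x : ℕ, x0 ≤ x → ((E ∩ Set.Icc 0 x).ncard : ℝ) ≤ (x : ℝ) ^ (1 - a)) ∧
      (∀ u : ℕ, Even u → u ∉ E → n0 ≤ u ∧ (u : ℝ) ^ (1 - b) ≤ reps u) ∧
      (∀ n : ℕ, OffTen E δ0 (goldbachGraph n) ∧ OffTen E δ0 (nearGoldbachGraph n)) ∧
      (∀ n : ℕ, n0 ≤ n →
        (∀ u v : goldbachVertices n, Rich goldbachVertices goldbachGraph b n0 n u →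
          Rich goldbachVertices goldbachGraph b n0 n v → (goldbachGraph n).edist u v ≤ 12) ∧
        (∀ u v : goldbachVertices n, (u : ℕ) = 0 → Rich goldbachVertices goldbachGraph b n0 n v →
          (goldbachGraph n).edist u v ≤ 7) ∧
        (∀ u v : evenVertices n, Rich evenVertices nearGoldbachGraph b n0 n u →
          Rich evenVertices nearGoldbachGraph b n0 n v → (nearGoldbachGraph n).edist u v ≤ 12)) ∧
      (QuantGoldbach b → ∃ C N U : ℕ, ∀ n : ℕ, N ≤ n →
        (∀ u v : goldbachVertices n, (goldbachGraph n).edist u v ≤ C ∧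
          (U ≤ (u : ℕ) → U ≤ (v : ℕ) → (goldbachGraph n).edist u v ≤ 12)) ∧
        (∀ u v : evenVertices n, (nearGoldbachGraph n).edist u v ≤ C ∧
          (U ≤ (u : ℕ) → U ≤ (v : ℕ) → (nearGoldbachGraph n).edist u v ≤ 12))) := by
  obtain ⟨c0, hc0, n1, h1⟩ := Pool.Agent.H37T.gin
  exact rich12 (Pool.Agent.Lib.H96G.final c0 hc0 n1 h1)
    (own4 (Pool.Agent.Lib.H18R.of_own c0 hc0 n1 h1) Pool.Agent.H37T.invS)

end Pool.Agent.Results.MP_443e5f_co.TenOffThinSet
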